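import Mathlib
import Pool.Agent.N485.Rectif

set_option autoImplicit false

/-!
MP_46c3d4_gt: Q1 and Q2, both answered positively.  Every rectifiable `p`-space with countable
Souslin number is Lindelöf.
-/

open Cardinal Topology

universe u

namespace Pool.Agent.Results.MP_46c3d4_gt.RectifiableLindelof

/-- `X` is rectifiable: for some point `e` there is a homeomorphism `φ` of `X × X` onto itself with
`φ ({x} × X) = {x} × X` and `φ (x, x) = (x, e)` for every `x`. -/
def Rectifiable (X : Type u) [TopologicalSpace X] : Prop :=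
  ∃ (e : X) (φ : X × X ≃ₜ X × X),
    (∀ x : X, φ '' (({x} : Set X) ×ˢ (Set.univ : Set X)) = ({x} : Set X) ×ˢ (Set.univ : Set X)) ∧
      ∀ x : X, φ (x, x) = (x, e)

/-- The star of the point `x` of `X` with respect to a family of subsets of `β X`. -/
def St {X : Type u} [TopologicalSpace X] (x : X) (γ : Set (Set (StoneCech X))) :
    Set (StoneCech X) :=
  ⋃₀ {U ∈ γ | stoneCechUnit x ∈ U}

/-- `X` is a `p`-space: it is Tychonoff, and there are families `γ n` of open subsets of `β X`,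
each covering `X`, such that the intersection of the stars `St x (γ n)` is contained in `X`, for
every point `x` of `X`. -/
def PSpace (X : Type u) [TopologicalSpace X] : Prop :=
  T35Space X ∧ ∃ γ : ℕ → Set (Set (StoneCech X)),
    (∀ n, ∀ U ∈ γ n, IsOpen U) ∧
    (∀ n, Set.range (stoneCechUnit : X → StoneCech X) ⊆ ⋃₀ γ n) ∧
    ∀ x : X, (⋂ n, St x (γ n)) ⊆ Set.range (stoneCechUnit : X → StoneCech X)

/-- Every family of pairwise disjoint nonempty open sets has at most `κ` members. -/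
def CellularityLE (X : Type u) [TopologicalSpace X] (κ : Cardinal.{u}) : Prop :=
  ∀ 𝒞 : Set (Set X), (∀ U ∈ 𝒞, IsOpen U ∧ U.Nonempty) → 𝒞.PairwiseDisjoint id → #𝒞 ≤ κ

/-- Every open cover of `X` has a subcover with at most `κ` members. -/
def LindelofDegreeLE (X : Type u) [TopologicalSpace X] (κ : Cardinal.{u}) : Prop :=
  ∀ 𝒪 : Set (Set X), (∀ U ∈ 𝒪, IsOpen U) → ⋃₀ 𝒪 = Set.univ →
    ∃ 𝒱 ⊆ 𝒪, #𝒱 ≤ κ ∧ ⋃₀ 𝒱 = Set.univ

/-- Some nonempty compact subset of `X` has an outer base of at most `κ` open sets. -/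
def HasCompactOfCharacterLE (X : Type u) [TopologicalSpace X] (κ : Cardinal.{u}) : Prop :=
  ∃ F : Set X, F.Nonempty ∧ IsCompact F ∧ ∃ 𝓑 : Set (Set X), #𝓑 ≤ κ ∧
    (∀ B ∈ 𝓑, IsOpen B ∧ F ⊆ B) ∧ ∀ U : Set X, IsOpen U → F ⊆ U → ∃ B ∈ 𝓑, B ⊆ U

/-- The continuous maps `p` and `q` of a rectifiable space. -/
theorem maps {X : Type u} [TopologicalSpace X] (h : Rectifiable X) :
    ∃ (e : X) (p q : X → X → X), Continuous (fun z : X × X => p z.1 z.2) ∧
      Continuous (fun z : X × X => q z.1 z.2) ∧ (∀ x, p x x = e) ∧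
      (∀ x y, q x (p x y) = y) ∧ (∀ x y, p x (q x y) = y) := by
  obtain ⟨e, φ, h1, h2⟩ := h
  have hfst : ∀ z : X × X, (φ z).1 = z.1 := by
    intro z
    have h3 : φ z ∈ φ '' (({z.1} : Set X) ×ˢ (Set.univ : Set X)) :=
      ⟨z, ⟨rfl, trivial⟩, rfl⟩
    rw [h1] at h3
    exact h3.1
  have hfst' : ∀ z : X × X, (φ.symm z).1 = z.1 := by
    intro z
    have h3 := hfst (φ.symm z)
    rw [φ.apply_symm_apply] at h3
    exact h3.symm
  refine ⟨e, fun x y => (φ (x, y)).2, fun x y => (φ.symm (x, y)).2, ?_, ?_, ?_, ?_, ?_⟩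
  · exact continuous_snd.comp φ.continuous
  · exact continuous_snd.comp φ.symm.continuous
  · intro x
    change (φ (x, x)).2 = e
    rw [h2]
  · intro x y
    change (φ.symm (x, (φ (x, y)).2)).2 = y
    have h3 : (x, (φ (x, y)).2) = φ (x, y) := Prod.ext (hfst (x, y)).symm rfl
    rw [h3, φ.symm_apply_apply]
  · intro x y
    change (φ (x, (φ.symm (x, y)).2)).2 = y
    have h3 : (x, (φ.symm (x, y)).2) = φ.symm (x, y) := Prod.ext (hfst' (x, y)).symm rfl
    rw [h3, φ.apply_symm_apply]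

/-- The general theorem. -/
theorem general {X : Type u} [TopologicalSpace X] (h : Rectifiable X) (κ : Cardinal.{u})
    (hκ : ℵ₀ ≤ κ) (hchar : HasCompactOfCharacterLE X κ) (hcell : CellularityLE X κ) :
    LindelofDegreeLE X κ := by
  obtain ⟨e, p, q, hp, hq, h1, h2, h3⟩ := maps h
  obtain ⟨F, hne, hF, 𝓑, hcard, hb1, hb2⟩ := hchar
  obtain ⟨F', 𝓑', hF', he', hb', hcard'⟩ :=
    Pool.Agent.N485.Rectif.move e p q hp hq h1 h2 h3 F hF hne 𝓑 ⟨hb1, hb2⟩ κ hcard
  intro 𝒪 h𝒪 hcov
  exact Pool.Agent.N485.Rectif.main e p q hp hq h1 h2 F' hF' he' 𝓑' hb' κ hκ hcard' hcell 𝒪 h𝒪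
    hcov

/-- `LindelofDegreeLE X ℵ₀` is the Lindelöf property. -/
theorem lindelof_of {X : Type u} [TopologicalSpace X] (h : LindelofDegreeLE X ℵ₀) :
    LindelofSpace X := by
  refine ⟨isLindelof_of_countable_subcover fun {ι} U hU hcov => ?_⟩
  obtain ⟨𝒱, h1, h2, h3⟩ := h (Set.range U) (by rintro _ ⟨i, rfl⟩; exact hU i)
    (by rw [Set.sUnion_range]; exact Set.univ_subset_iff.1 hcov)
  have hc : 𝒱.Countable := mk_le_aleph0_iff.1 h2
  have hex : ∀ V ∈ 𝒱, ∃ i, U i = V := fun V hV => h1 hV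
  choose f hf using hex
  have hc' : Countable 𝒱 := hc.to_subtype
  refine ⟨Set.range fun V : 𝒱 => f V.1 V.2, Set.countable_range _, ?_⟩
  intro x _
  have hx : x ∈ ⋃₀ 𝒱 := h3 ▸ Set.mem_univ x
  obtain ⟨V, hV, hxV⟩ := hx
  refine Set.mem_biUnion (Set.mem_range_self (⟨V, hV⟩ : 𝒱)) ?_
  change x ∈ U (f V hV)
  rw [hf V hV]
  exact hxV

/-- **Main theorem.**

1. (Q1) Every rectifiable `p`-space with countable Souslin number is Lindelöf.
2. (Q2 (a), (b)) Every separable rectifiable `p`-space, and in particular every separable locally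
compact one, is Lindelöf.
3. More generally, let `X` be a rectifiable space, with no separation axiom, let `κ` be an infinite
cardinal, and suppose that some nonempty compact subset of `X` has character at most `κ` in `X`.
If the Souslin number of `X` is at most `κ`, then so is its Lindelöf degree. -/
theorem result :
    (∀ (X : Type u) [TopologicalSpace X], Rectifiable X → PSpace X → CellularityLE X ℵ₀ →
      LindelofSpace X) ∧
    (∀ (X : Type u) [TopologicalSpace X], Rectifiable X → PSpace X →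
      TopologicalSpace.SeparableSpace X → LindelofSpace X) ∧
    (∀ (X : Type u) [TopologicalSpace X], Rectifiable X → PSpace X →
      TopologicalSpace.SeparableSpace X → LocallyCompactSpace X → LindelofSpace X) ∧
    (∀ (X : Type u) [TopologicalSpace X] (κ : Cardinal.{u}), Rectifiable X → ℵ₀ ≤ κ →
      HasCompactOfCharacterLE X κ → CellularityLE X κ → LindelofDegreeLE X κ) := by
  have key : ∀ (X : Type u) [TopologicalSpace X], Rectifiable X → PSpace X →
      CellularityLE X ℵ₀ → LindelofSpace X := by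
    intro X _ hr hp hc
    obtain ⟨hT, γ, h1, h2, h3⟩ := hp
    have hr' := hr
    obtain ⟨e, _⟩ := hr'
    obtain ⟨F, 𝓑, hF, heF, hb, hcount⟩ := Pool.Agent.N485.Rectif.pspace γ h1 h2 h3 e
    exact lindelof_of (general hr ℵ₀ le_rfl ⟨F, ⟨e, heF⟩, hF, 𝓑, mk_le_aleph0_iff.2 hcount,
      hb.1, hb.2⟩ hc)
  have sep : ∀ (X : Type u) [TopologicalSpace X], TopologicalSpace.SeparableSpace X →
      CellularityLE X ℵ₀ := by
    intro X _ hs 𝒞 h1 h2
    rw [mk_le_aleph0_iff]
    exact h2.countable_of_isOpen (fun U hU => (h1 U hU).1) (fun U hU => (h1 U hU).2)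
  exact ⟨key, fun X _ hr hp hs => key X hr hp (sep X hs), fun X _ hr hp hs _ =>
    key X hr hp (sep X hs), fun X _ κ hr hκ hch hc => general hr κ hκ hch hc⟩

end Pool.Agent.Results.MP_46c3d4_gt.RectifiableLindelof
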